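import Pool.Agent.N196.AS.Lit

/-!
# SKYH: skyscrapers over a projection
-/

set_option autoImplicit false
set_option linter.unusedSectionVars false

namespace Pool.Agent.N196.AS

open Finset Matrix Pool.Agent.N139.AS
open Pool.Agent.H698R3.Amalg (fro fn fro_eq_re fro_nonneg fro_neg fro_mul_left fn_add_le fn_sq fn_nonneg)

noncomputable section

/-! ### windows -/

section win

variable {N : Type} [Group N] {S : WD N} (hS : S.Ok) {R : ℕ} {d : ℕ} {α : N → UU d} {t : UU d}
  (hA : Act S R α t)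

include hS in
theorem sig_iff (i : ℕ) (a b : ℤ) (n : N) :
    (S.σ ^ i) n ∈ S.W (a + i) (b + i) ↔ n ∈ S.W a b := by
  induction i with
  | zero => simp
  | succ i ih =>
    rw [pow_succ', MulAut.mul_apply]
    have h1 : a + ((i + 1 : ℕ) : ℤ) = (a + i) + 1 := by push_cast; ring
    have h2 : b + ((i + 1 : ℕ) : ℤ) = (b + i) + 1 := by push_cast; ring
    rw [h1, h2, hS.shift, ih]

include hS in
theorem sig_inv (i : ℕ) (a b : ℤ) (n : N) (hn : n ∈ S.W a b) :
    (S.σ⁻¹ ^ i) n ∈ S.W (a - i) (b - i) := by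
  rw [← sig_iff hS i]
  have h1 : (S.σ ^ i) ((S.σ⁻¹ ^ i) n) = n := by
    rw [← MulAut.mul_apply, inv_pow, mul_inv_cancel]
    rfl
  rw [h1, sub_add_cancel, sub_add_cancel]
  exact hn

include hS hA in
theorem conj_rel (i : ℕ) {a b : ℤ} {w : N} (hw : w ∈ S.W a b) (ha : -(R : ℤ) ≤ a)
    (hb : b + i ≤ R) : t ^ i * α w = α ((S.σ ^ i) w) * t ^ i := by
  induction i with
  | zero => simp
  | succ i ih =>
    have hb' : b + i ≤ (R : ℤ) - 1 := by push_cast at hb; linarith
    have h1 : (S.σ ^ i) w ∈ S.W (-(R : ℤ)) ((R : ℤ) - 1) :=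
      hS.mono _ _ _ _ (by linarith [Int.natCast_nonneg i]) hb' ((sig_iff hS i a b w).2 hw)
    rw [_root_.pow_succ', mul_assoc, ih (by linarith), ← mul_assoc, hA.rel _ h1, mul_assoc,
      _root_.pow_succ' S.σ, MulAut.mul_apply]

variable {K : ℕ} (hKR : 2 * K < R) {e q : Mt d} (hM : Mk S (2 * K) α t e q)

include hS hA hKR hM in
/-- elements of the window `[-j, 0)` commute with the base of the tower of height `j` -/
theorem comm_base {j : ℕ} (hj : j ≤ 2 * K) {w : N} (hw : w ∈ S.W (-(j : ℤ)) 0) :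
    Commute (α w).1 (LP t e q (LB j)) := by
  refine LP_comm t e q _ fun l hl => ?_
  obtain ⟨i, hi, hli⟩ := LB_idx l hl
  rw [hli]
  have h1 : t ^ i * α w = α ((S.σ ^ i) w) * t ^ i :=
    conj_rel hS hA i hw (by omega) (by omega)
  have h2 : (S.σ ^ i) w ∈ S.W (-((2 * K : ℕ) : ℤ)) ((2 * K : ℕ) : ℤ) :=
    hS.mono _ _ _ _ (by omega) (by omega) ((sig_iff hS i _ _ w).2 hw)
  have h3 : Commute (α ((S.σ ^ i) w)).1 (bs e q l.1) := by
    cases l.1
    · exact hM.aq _ h2
    · exact hM.ae _ h2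
  have h4 : (α w).1 = cj t (-(i : ℤ)) (α ((S.σ ^ i) w)).1 := by
    unfold cj
    rw [neg_neg]
    have h5 : α w = t ^ (-(i : ℤ)) * α ((S.σ ^ i) w) * t ^ (i : ℤ) := by
      rw [mul_assoc, _root_.zpow_natCast, ← h1, ← mul_assoc, _root_.zpow_neg,
        _root_.zpow_natCast, inv_mul_cancel, one_mul]
    exact congrArg Subtype.val h5
  rw [h4]
  show cj t (-(i : ℤ)) _ * cj t (-(i : ℤ)) _ = cj t (-(i : ℤ)) _ * cj t (-(i : ℤ)) _
  rw [← cj_mul, ← cj_mul, h3.eq]

end win

/-! ### the towers -/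

/-- levels -/
abbrev Lev (M : ℕ) : Type := (j : Fin M) × Fin (j.val + 1)

section tower

variable {d : ℕ} (t : UU d) (e q : Mt d) (M : ℕ)

/-- the base of the tower -/
def bb (l : Lev M) : Mt d := LP t e q (LB (l.1.val + 1))

/-- the partial isometry of the base onto the level -/
def VV (l : Lev M) : Mt d := (t ^ (l.2.val : ℤ) : UU d).1 * bb t e q M l

variable {Y : Type} [Fintype Y] {π : Y → Mt d} {χ : Bool → ℤ → Y → Prop} (hπ : Rs π)
  (hχ : ∀ (k : Bool) (i : ℤ), |i| ≤ M → cj t i (bs e q k) = Ph π (χ k i))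

include hπ hχ in
theorem lev_eq {j i : ℕ} (hij : i ≤ j) (hj : j ≤ M) :
    cj t i (LP t e q (LB j)) = Ph π (PP χ j i) := by
  rw [cj_LP, LP_eq t e q hπ hχ _ (LB_bound hij hj)]
  exact Ph_congr (sat_LB χ j i)

include hπ hχ in
theorem base_eq {j : ℕ} (hj : j ≤ M) : LP t e q (LB j) = Ph π (PP χ j 0) := by
  have := lev_eq t e q M hπ hχ (Nat.zero_le j) hj
  rwa [Nat.cast_zero, cj_zero] at this

include hπ hχ in
theorem isP_bb (l : Lev M) : IsP (bb t e q M l) := by
  have : bb t e q M l = Ph π (PP χ (l.1.val + 1) 0) := base_eq t e q M hπ hχ (by omega)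
  rw [this]
  exact Ph_isP hπ _

theorem VV_star (l : Lev M) (hb : IsP (bb t e q M l)) :
    (VV t e q M l)ᴴ = bb t e q M l * (t ^ (-(l.2.val : ℤ)) : UU d).1 := by
  unfold VV
  rw [conjTranspose_mul, hb.1, star_pow]

theorem VV_VV (l : Lev M) (hb : IsP (bb t e q M l)) :
    VV t e q M l * (VV t e q M l)ᴴ = cj t (l.2.val : ℤ) (bb t e q M l) := by
  rw [VV_star t e q M l hb]
  unfold VV cj
  calc (t ^ (l.2.val : ℤ) : UU d).1 * bb t e q M l * (bb t e q M l * (t ^ (-(l.2.val : ℤ)) : UU d).1)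
      = (t ^ (l.2.val : ℤ) : UU d).1 * (bb t e q M l * bb t e q M l) *
          (t ^ (-(l.2.val : ℤ)) : UU d).1 := by noncomm_ring
    _ = _ := by rw [hb.2]

include hπ hχ in
theorem VV_Ph (l : Lev M) :
    VV t e q M l * (VV t e q M l)ᴴ = Ph π (PP χ (l.1.val + 1) l.2.val) := by
  rw [VV_VV t e q M l (isP_bb t e q M hπ hχ l)]
  exact lev_eq t e q M hπ hχ (by omega) (by omega)

theorem lev_inj {y : Y} {l m : Lev M} (h : PP χ (l.1.val + 1) l.2.val y)
    (h' : PP χ (m.1.val + 1) m.2.val y) : l = m := by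
  obtain ⟨h1, h2⟩ := PP_disj (by omega) (by omega) h h'
  obtain ⟨j, i⟩ := l
  obtain ⟨j', i'⟩ := m
  have h3 : j = j' := Fin.ext (by simpa using h1)
  subst h3
  have h4 : i = i' := Fin.ext h2
  rw [h4]

include hπ hχ in
theorem tow : Tow (VV t e q M) (bb t e q M) := by
  have hb := isP_bb t e q M hπ hχ
  have h1 : ∀ l, VV t e q M l * bb t e q M l = VV t e q M l := by
    intro l
    unfold VV
    rw [mul_assoc, (hb l).2]
  have h2 : ∀ l, (VV t e q M l)ᴴ * VV t e q M l = bb t e q M l := by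
    intro l
    rw [VV_star t e q M l (hb l)]
    unfold VV
    calc bb t e q M l * (t ^ (-(l.2.val : ℤ)) : UU d).1 *
          ((t ^ (l.2.val : ℤ) : UU d).1 * bb t e q M l)
        = bb t e q M l * ((t ^ (-(l.2.val : ℤ)) : UU d).1 * (t ^ (l.2.val : ℤ) : UU d).1) *
            bb t e q M l := by noncomm_ring
      _ = bb t e q M l := by rw [pow_neg_mul, mul_one, (hb l).2]
  refine ⟨h2, fun l m hlm => ?_, h1⟩
  have h3 : (VV t e q M l)ᴴ = (VV t e q M l)ᴴ * (VV t e q M l * (VV t e q M l)ᴴ) := by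
    rw [← mul_assoc, h2, VV_star t e q M l (hb l), ← mul_assoc, (hb l).2]
  have h4 : VV t e q M m = (VV t e q M m * (VV t e q M m)ᴴ) * VV t e q M m := by
    rw [mul_assoc, h2, h1]
  have h5 : (VV t e q M l * (VV t e q M l)ᴴ) * (VV t e q M m * (VV t e q M m)ᴴ) = 0 := by
    rw [VV_Ph t e q M hπ hχ, VV_Ph t e q M hπ hχ, Ph_mul hπ, ← Ph_false (π := π)]
    exact Ph_congr fun y => ⟨fun h => hlm (lev_inj M h.1 h.2), fun h => h.elim⟩
  rw [h3, h4]
  calc (VV t e q M l)ᴴ * (VV t e q M l * (VV t e q M l)ᴴ) *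
        ((VV t e q M m * (VV t e q M m)ᴴ) * VV t e q M m)
      = (VV t e q M l)ᴴ * ((VV t e q M l * (VV t e q M l)ᴴ) *
          (VV t e q M m * (VV t e q M m)ᴴ)) * VV t e q M m := by noncomm_ring
    _ = 0 := by rw [h5, mul_zero, zero_mul]

include hπ hχ in
theorem q_eq : q = Ph π (χ false 0) := by
  have := hχ false 0 (by simp)
  rw [cj_zero] at this
  exact this

include hπ hχ in
theorem e_eq : e = Ph π (χ true 0) := by
  have := hχ true 0 (by simp)
  rw [cj_zero] at this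
  exact this

theorem PP_q {j i : ℕ} (hij : i < j) {y : Y} (h : PP χ j i y) : χ false 0 y := by
  have := h.2.2.1 i hij
  rwa [sub_self] at this

include hπ hχ in
theorem VV_q (l : Lev M) : (VV t e q M l)ᴴ * (1 - q) = 0 := by
  have hb := isP_bb t e q M hπ hχ l
  have h2 := (tow t e q M hπ hχ).vv l
  have h3 : (VV t e q M l)ᴴ = (VV t e q M l)ᴴ * (VV t e q M l * (VV t e q M l)ᴴ) := by
    rw [← mul_assoc, h2, VV_star t e q M l hb, ← mul_assoc, hb.2]
  have h4 : (VV t e q M l * (VV t e q M l)ᴴ) * (1 - q) = 0 := by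
    conv_lhs => rw [q_eq t e q M hπ hχ]
    rw [← q_eq t e q M hπ hχ, VV_Ph t e q M hπ hχ, q_eq t e q M hπ hχ, Ph_compl hπ, Ph_mul hπ,
      ← Ph_false (π := π)]
    exact Ph_congr fun y => ⟨fun h => h.2 (PP_q (by omega) h.1), fun h => h.elim⟩
  rw [h3, mul_assoc, h4, mul_zero]

include hπ hχ in
theorem Op_q (s : Equiv.Perm (Lev M)) (U : Lev M → UU d) :
    Op (VV t e q M) s U * (1 - q) = 1 - q := by
  have hq := VV_q t e q M hπ hχ
  unfold Op
  rw [add_mul, Finset.sum_mul, Finset.sum_eq_zero, zero_add, sub_mul, one_mul, Finset.sum_mul,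
    Finset.sum_eq_zero, sub_zero]
  · intro l _
    rw [mul_assoc, hq, mul_zero]
  · intro l _
    rw [mul_assoc, hq, mul_zero]

/-! ### masses -/

theorem w_nonneg (hπ : Rs π) (y : Y) : 0 ≤ rtr (π y) := rtr_nonneg (hπ.isP y)

theorem LP_pos_neg (f : ℕ → ℤ) (n : ℕ) :
    LP t e q ((false, true, 0) :: (List.range n).map fun i : ℕ => ((true, false, f i) : Lit)) =
      q * ((List.range n).map fun i : ℕ => 1 - cj t (f i) e).prod := by
  unfold LP
  rw [List.map_cons, List.prod_cons, List.map_map]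
  congr 1
  exact cj_zero t q

include hπ hχ in
theorem rtr_side (f : ℕ → ℤ) (n : ℕ) (hf : ∀ i < n, |f i| ≤ M) :
    rtr (q * ((List.range n).map fun i : ℕ => 1 - cj t (f i) e).prod) =
      ms π (fun y => χ false 0 y ∧ ∀ i : ℕ, i < n → ¬ χ true (f i) y) := by
  rw [← LP_pos_neg, LP_eq t e q hπ hχ, ← rtr_Ph]
  · congr 1
    refine Ph_congr fun y => ?_
    simp only [List.mem_cons, List.mem_map, List.mem_range]
    constructor
    · intro h
      refine ⟨?_, fun i hi => ?_⟩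
      · have := h _ (Or.inl rfl)
        simpa [sat] using this
      · have := h _ (Or.inr ⟨i, hi, rfl⟩)
        simpa [sat] using this
    · rintro ⟨h1, h2⟩ l (rfl | ⟨i, hi, rfl⟩)
      · simpa [sat] using h1
      · simpa [sat] using h2 i hi
  · intro l hl
    simp only [List.mem_cons, List.mem_map, List.mem_range] at hl
    rcases hl with rfl | ⟨i, hi, rfl⟩
    · simp
    · exact hf i hi

include hπ hχ in
theorem rtr_exq (i : ℤ) (hi : |i| ≤ M) :
    rtr (q * (1 - cj t i q)) = ms π (fun y => χ false 0 y ∧ ¬ χ false i y) := by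
  have h1 : cj t i q = Ph π (χ false i) := hχ false i hi
  rw [h1]
  conv_lhs => rw [q_eq t e q M hπ hχ]
  rw [Ph_compl hπ, Ph_mul hπ, rtr_Ph]

end tower

section bound

variable {d : ℕ} (t : UU d) (e q : Mt d) (K : ℕ)
variable {Y : Type} [Fintype Y] {π : Y → Mt d} {χ : Bool → ℤ → Y → Prop} (hπ : Rs π)
  (hχ : ∀ (k : Bool) (i : ℤ), |i| ≤ (2 * K : ℕ) → cj t i (bs e q k) = Ph π (χ k i))

include hπ hχ in
/-- the mass of a level is the mass of the base -/
theorem ms_lev (l : Lev (2 * K)) :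
    ms π (PP χ (l.1.val + 1) l.2.val) = ms π (PP χ (l.1.val + 1) 0) := by
  rw [← rtr_Ph, ← rtr_Ph, ← lev_eq t e q (2 * K) hπ hχ (j := l.1.val + 1) (i := l.2.val)
    (by omega) (by omega), rtr_cj, base_eq t e q (2 * K) hπ hχ (by omega)]

include hπ hχ in
/-- the bases are disjoint parts of `e` -/
theorem ms_base : ∑ j : Fin (2 * K), ms π (PP χ (j.val + 1) 0) ≤ rtr e := by
  classical
  have h1 : rtr e = ms π (χ true 0) := by
    rw [← rtr_Ph]
    congr 1
    exact e_eq t e q (2 * K) hπ hχ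
  rw [h1]
  unfold ms
  rw [Finset.sum_comm]
  refine Finset.sum_le_sum fun y _ => ?_
  have hw := w_nonneg (π := π) hπ y
  by_cases hex : ∃ j : Fin (2 * K), PP χ (j.val + 1) 0 y
  · obtain ⟨j, hj⟩ := hex
    rw [Finset.sum_eq_single j, ix_pos hj, ix_pos]
    · simpa using hj.1
    · intro j' _ hj'
      rw [ix_neg]
      intro h
      have := (PP_disj (by omega) (by omega) h hj).1
      exact hj' (Fin.ext (by omega))
    · intro h
      exact absurd (Finset.mem_univ j) h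
  · rw [Finset.sum_eq_zero]
    · exact ix_nonneg _ hw
    · intro j _
      rw [ix_neg]
      exact fun h => hex ⟨j, h⟩

include hπ hχ in
theorem mass_bound (good : Lev (2 * K) → Prop) (c : ℕ)
    (hbad : ∀ j : Fin (2 * K), (open Classical in
      (univ.filter fun i : Fin (j.val + 1) => ¬ good ⟨j, i⟩).card) ≤ c) :
    ms π (fun y => χ false 0 y ∧ ¬ ∃ l : Lev (2 * K), good l ∧ PP χ (l.1.val + 1) l.2.val y) ≤
      c * rtr e + rtr (q * uB t e K) + rtr (q * uF t e K) + exq t q K := by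
  classical
  have hB : rtr (q * uB t e K) =
      ms π (fun y => χ false 0 y ∧ ∀ i : ℕ, i < K + 1 → ¬ χ true (i : ℤ) y) :=
    rtr_side t e q (2 * K) hπ hχ (fun i => (i : ℤ)) (K + 1) fun i hi => by
      rw [abs_le]; constructor <;> push_cast <;> omega
  have hF : rtr (q * uF t e K) =
      ms π (fun y => χ false 0 y ∧ ∀ i : ℕ, i < K → ¬ χ true (-((i : ℤ) + 1)) y) :=
    rtr_side t e q (2 * K) hπ hχ (fun i => -((i : ℤ) + 1)) K fun i hi => by
      rw [abs_le]; constructor <;> push_cast <;> omega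
  have hE : exq t q K = ∑ i ∈ Finset.Icc (-(K : ℤ)) K,
      ms π (fun y => χ false 0 y ∧ ¬ χ false i y) := by
    unfold exq
    refine Finset.sum_congr rfl fun i hi => ?_
    have := Finset.mem_Icc.1 hi
    exact rtr_exq t e q (2 * K) hπ hχ i (by rw [abs_le]; constructor <;> push_cast <;> omega)
  have hL : ∑ l : Lev (2 * K), ms π (fun y => ¬ good l ∧ PP χ (l.1.val + 1) l.2.val y) ≤
      c * rtr e := by
    have h1 : ∀ l : Lev (2 * K), ms π (fun y => ¬ good l ∧ PP χ (l.1.val + 1) l.2.val y) =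
        if ¬ good l then ms π (PP χ (l.1.val + 1) 0) else 0 := by
      intro l
      rw [← ms_lev t e q K hπ hχ l]
      by_cases hg : good l
      · rw [if_neg (not_not.2 hg)]
        unfold ms
        refine Finset.sum_eq_zero fun y _ => ?_
        exact ix_neg (fun h => h.1 hg) _
      · rw [if_pos hg]
        unfold ms
        refine Finset.sum_congr rfl fun y _ => ?_
        simp only [hg, not_false_eq_true, true_and]
    rw [Finset.sum_congr rfl fun l _ => h1 l, Fintype.sum_sigma]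
    calc ∑ j : Fin (2 * K), ∑ i : Fin (j.val + 1),
          (if ¬ good ⟨j, i⟩ then ms π (PP χ (j.val + 1) 0) else 0)
        ≤ ∑ j : Fin (2 * K), c * ms π (PP χ (j.val + 1) 0) := by
          refine Finset.sum_le_sum fun j _ => ?_
          rw [← Finset.sum_filter, Finset.sum_const, nsmul_eq_mul]
          refine mul_le_mul_of_nonneg_right ?_ ?_
          · have := hbad j
            exact_mod_cast (by convert this)
          · rw [← rtr_Ph]
            exact rtr_nonneg (Ph_isP hπ _)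
      _ = c * ∑ j : Fin (2 * K), ms π (PP χ (j.val + 1) 0) := by rw [Finset.mul_sum]
      _ ≤ c * rtr e := mul_le_mul_of_nonneg_left (ms_base t e q K hπ hχ) (Nat.cast_nonneg c)
  refine le_trans ?_ (add_le_add (add_le_add (add_le_add hL hB.ge) hF.ge) hE.ge)
  unfold ms
  rw [Finset.sum_comm, Finset.sum_comm (s := Finset.Icc (-(K : ℤ)) K), ← Finset.sum_add_distrib,
    ← Finset.sum_add_distrib, ← Finset.sum_add_distrib]
  refine Finset.sum_le_sum fun y _ => ?_
  have hw := w_nonneg (π := π) hπ y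
  show ix (χ false 0 y ∧ ¬ ∃ l : Lev (2 * K), good l ∧ PP χ (l.1.val + 1) l.2.val y) (rtr (π y)) ≤
    (∑ l : Lev (2 * K), ix (¬ good l ∧ PP χ (l.1.val + 1) l.2.val y) (rtr (π y))) +
    ix (χ false 0 y ∧ ∀ i : ℕ, i < K + 1 → ¬ χ true (i : ℤ) y) (rtr (π y)) +
    ix (χ false 0 y ∧ ∀ i : ℕ, i < K → ¬ χ true (-((i : ℤ) + 1)) y) (rtr (π y)) +
    ∑ i ∈ Finset.Icc (-(K : ℤ)) K, ix (χ false 0 y ∧ ¬ χ false i y) (rtr (π y))
  have n1 : 0 ≤ ∑ l : Lev (2 * K), ix (¬ good l ∧ PP χ (l.1.val + 1) l.2.val y) (rtr (π y)) :=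
    Finset.sum_nonneg fun l _ => ix_nonneg _ hw
  have n2 := ix_nonneg (χ false 0 y ∧ ∀ i : ℕ, i < K + 1 → ¬ χ true (i : ℤ) y) hw
  have n3 := ix_nonneg (χ false 0 y ∧ ∀ i : ℕ, i < K → ¬ χ true (-((i : ℤ) + 1)) y) hw
  have n4 : 0 ≤ ∑ i ∈ Finset.Icc (-(K : ℤ)) K, ix (χ false 0 y ∧ ¬ χ false i y) (rtr (π y)) :=
    Finset.sum_nonneg fun l _ => ix_nonneg _ hw
  by_cases hy : χ false 0 y ∧ ¬ ∃ l : Lev (2 * K), good l ∧ PP χ (l.1.val + 1) l.2.val y
  swap
  · rw [ix_neg hy]
    linarith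
  rw [ix_pos hy]
  by_cases c2 : ∀ i : ℕ, i < K + 1 → ¬ χ true (i : ℤ) y
  · have := ix_pos (⟨hy.1, c2⟩ : χ false 0 y ∧ ∀ i : ℕ, i < K + 1 → ¬ χ true (i : ℤ) y)
      (rtr (π y))
    linarith
  by_cases c3 : ∀ i : ℕ, i < K → ¬ χ true (-((i : ℤ) + 1)) y
  · have := ix_pos (⟨hy.1, c3⟩ : χ false 0 y ∧ ∀ i : ℕ, i < K → ¬ χ true (-((i : ℤ) + 1)) y)
      (rtr (π y))
    linarith
  by_cases c4 : ∀ i : ℤ, i ∈ Finset.Icc (-(K : ℤ)) K → χ false i y
  · obtain ⟨j, i, hj1, hjK, hij, hP⟩ := cover c2 c3 c4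
    obtain ⟨j, rfl⟩ : ∃ j', j = j' + 1 := ⟨j - 1, by omega⟩
    let l : Lev (2 * K) := ⟨⟨j, by omega⟩, ⟨i, hij⟩⟩
    have hl : ¬ good l := fun hg => hy.2 ⟨l, hg, hP⟩
    have h5 : rtr (π y) ≤ ∑ l : Lev (2 * K),
        ix (¬ good l ∧ PP χ (l.1.val + 1) l.2.val y) (rtr (π y)) := by
      refine le_trans (le_of_eq ?_) (Finset.single_le_sum
        (f := fun l : Lev (2 * K) => ix (¬ good l ∧ PP χ (l.1.val + 1) l.2.val y) (rtr (π y)))
        (fun l _ => ix_nonneg _ hw) (Finset.mem_univ l))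
      exact (ix_pos (⟨hl, hP⟩ : ¬ good l ∧ PP χ (j + 1) i y) _).symm
    linarith
  · push Not at c4
    obtain ⟨i, hi, hi2⟩ := c4
    have h5 : rtr (π y) ≤ ∑ i ∈ Finset.Icc (-(K : ℤ)) K,
        ix (χ false 0 y ∧ ¬ χ false i y) (rtr (π y)) := by
      refine le_trans (le_of_eq ?_) (Finset.single_le_sum
        (f := fun i : ℤ => ix (χ false 0 y ∧ ¬ χ false i y) (rtr (π y)))
        (fun l _ => ix_nonneg _ hw) hi)
      exact (ix_pos (⟨hy.1, hi2⟩ : χ false 0 y ∧ ¬ χ false i y) _).symm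
    linarith

include hπ hχ in
theorem err_bound (D : Mt d) (good : Lev (2 * K) → Prop) (c : ℕ)
    (hgood : ∀ l, good l → D * VV t e q (2 * K) l = 0)
    (hbad : ∀ j : Fin (2 * K), (open Classical in
      (univ.filter fun i : Fin (j.val + 1) => ¬ good ⟨j, i⟩).card) ≤ c)
    (hD : ∀ z, IsP z → fro (D * z) ≤ 4 * rtr z) :
    fro (D * q) ≤
      4 * (c * rtr e + rtr (q * uB t e K) + rtr (q * uF t e K) + exq t q K) := by
  classical
  have h1 := mass_bound t e q K hπ hχ good c hbad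
  have h2 : D * q = D * Ph π (fun y => χ false 0 y ∧
      ¬ ∃ l : Lev (2 * K), good l ∧ PP χ (l.1.val + 1) l.2.val y) := by
    have e1 : q = Ph π (fun y => χ false 0 y ∧
        ¬ ∃ l : Lev (2 * K), good l ∧ PP χ (l.1.val + 1) l.2.val y) +
        ∑ l : Lev (2 * K), Ph π (fun y => good l ∧ PP χ (l.1.val + 1) l.2.val y) := by
      rw [Ph_sum _ fun l l' y h h' => lev_inj (2 * K) h.2 h'.2]
      conv_lhs => rw [q_eq t e q (2 * K) hπ hχ]
      unfold Ph
      rw [← Finset.sum_add_distrib]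
      refine Finset.sum_congr rfl fun y _ => ?_
      by_cases ha : χ false 0 y
      · by_cases hb : ∃ l : Lev (2 * K), good l ∧ PP χ (l.1.val + 1) l.2.val y
        · rw [if_pos ha, if_neg (fun h => h.2 hb), if_pos hb, zero_add]
        · rw [if_pos ha, if_pos ⟨ha, hb⟩, if_neg hb, add_zero]
      · have hb : ¬ ∃ l : Lev (2 * K), good l ∧ PP χ (l.1.val + 1) l.2.val y :=
          fun ⟨l, _, h⟩ => ha (PP_q (by omega) h)
        rw [if_neg ha, if_neg (fun h => ha h.1), if_neg hb, zero_add]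
    have e2 : D * ∑ l : Lev (2 * K), Ph π (fun y => good l ∧ PP χ (l.1.val + 1) l.2.val y) =
        0 := by
      rw [Finset.mul_sum]
      refine Finset.sum_eq_zero fun l _ => ?_
      by_cases hg : good l
      · have e3 : Ph π (fun y => good l ∧ PP χ (l.1.val + 1) l.2.val y) =
            VV t e q (2 * K) l * (VV t e q (2 * K) l)ᴴ := by
          rw [VV_Ph t e q (2 * K) hπ hχ]
          exact Ph_congr fun y => ⟨fun h => h.2, fun h => ⟨hg, h⟩⟩
        rw [e3, ← mul_assoc, hgood l hg, zero_mul]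
      · have e3 : Ph π (fun y => good l ∧ PP χ (l.1.val + 1) l.2.val y) = 0 := by
          rw [← Ph_false (π := π)]
          exact Ph_congr fun y => ⟨fun h => hg h.1, fun h => h.elim⟩
        rw [e3, mul_zero]
    conv_lhs => rw [e1]
    rw [mul_add, e2, add_zero]
  rw [h2]
  refine (hD _ (Ph_isP hπ _)).trans ?_
  rw [rtr_Ph]
  linarith

end bound

/-! ### the homomorphism -/

/-- rotation of the levels -/
def nx (M : ℕ) : Equiv.Perm (Lev M) := Equiv.sigmaCongrRight fun j => finRotate (j.val + 1)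

theorem nx_fst (M : ℕ) (l : Lev M) : (nx M l).1 = l.1 := rfl

theorem nx_lt (M : ℕ) (l : Lev M) (h : l.2.val < l.1.val) : (nx M l).2.val = l.2.val + 1 := by
  show (finRotate (l.1.val + 1) l.2).val = l.2.val + 1
  exact coe_finRotate_of_ne_last (fun h' => by
    have := congrArg Fin.val h'
    simp at this
    omega)

theorem nx_last (M : ℕ) (l : Lev M) (h : ¬ l.2.val < l.1.val) : (nx M l).2.val = 0 := by
  have h1 : l.2 = Fin.last l.1.val := Fin.ext (by
    have := l.2.2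
    simp only [Fin.val_last]
    omega)
  show (finRotate (l.1.val + 1) l.2).val = 0
  rw [h1, finRotate_last]
  rfl

theorem card_bad_one (j : ℕ) : (open Classical in
    (univ.filter fun i : Fin (j + 1) => ¬ i.val < j).card) ≤ 1 := by
  classical
  rw [Finset.card_le_one]
  intro a ha b hb
  have h1 := (Finset.mem_filter.1 ha).2
  have h2 := (Finset.mem_filter.1 hb).2
  exact Fin.ext (by omega)

theorem card_bad_two (j m : ℕ) : (open Classical in
    (univ.filter fun i : Fin (j + 1) => ¬ (m ≤ i.val ∧ i.val + m ≤ j + 1)).card) ≤ 2 * m := by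
  classical
  have h1 : (univ.filter fun i : Fin (j + 1) => i.val < m).card ≤ m := by
    have := Finset.card_le_card_of_injOn (s := univ.filter fun i : Fin (j + 1) => i.val < m)
      (t := Finset.range m) (fun i => i.val)
      (fun i hi => by
        have := (Finset.mem_filter.1 hi).2
        simpa using this)
      (fun a _ b _ h => Fin.ext h)
    simpa using this
  have h2 : (univ.filter fun i : Fin (j + 1) => j + 1 < i.val + m).card ≤ m := by
    have := Finset.card_le_card_of_injOn (s := univ.filter fun i : Fin (j + 1) => j + 1 < i.val + m)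
      (t := Finset.range m) (fun i => j - i.val)
      (fun i hi => by
        have := (Finset.mem_filter.1 hi).2
        simp only [Finset.coe_range, Set.mem_Iio]
        omega)
      (fun a _ b _ h => Fin.ext (by
        have h' : j - a.val = j - b.val := h
        omega))
    simpa using this
  calc _ ≤ ((univ.filter fun i : Fin (j + 1) => i.val < m) ∪
        (univ.filter fun i : Fin (j + 1) => j + 1 < i.val + m)).card := by
        refine Finset.card_le_card fun i hi => ?_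
        have h3 : ¬ (m ≤ i.val ∧ i.val + m ≤ j + 1) := by
          have := (Finset.mem_filter.1 hi).2
          exact this
        rw [Finset.mem_union, Finset.mem_filter, Finset.mem_filter]
        by_cases h4 : i.val < m
        · exact Or.inl ⟨Finset.mem_univ _, h4⟩
        · exact Or.inr ⟨Finset.mem_univ _, by omega⟩
    _ ≤ _ := Finset.card_union_le _ _
    _ ≤ 2 * m := by omega

theorem mem_uu_one {d : ℕ} {z : Mt d} {u v : UU d} (hu : u.1 * z = z) (hv : v.1 * z = z) :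
    (u * v).1 * z = z := by
  show u.1 * v.1 * z = z
  rw [mul_assoc, hv, hu]

theorem mem_uu_inv {d : ℕ} {z : Mt d} {u : UU d} (hu : u.1 * z = z) : (u⁻¹).1 * z = z := by
  have h1 : (u⁻¹).1 * u.1 = 1 := congrArg Subtype.val (inv_mul_cancel u)
  calc (u⁻¹).1 * z = (u⁻¹).1 * (u.1 * z) := by rw [hu]
    _ = ((u⁻¹).1 * u.1) * z := by noncomm_ring
    _ = z := by rw [h1, one_mul]

/-- the unitary matrices which act trivially on `z` -/
def Hq {d : ℕ} (z : Mt d) : Subgroup (UU d) where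
  carrier := {u | u.1 * z = z}
  one_mem' := by
    show (1 : Mt d) * z = z
    rw [one_mul]
  mul_mem' hu hv := mem_uu_one hu hv
  inv_mem' hu := mem_uu_inv hu

theorem t_SKYH : S_SKYH := by
  intro N _ S hS m K R hKR d α t hA e q hM
  obtain ⟨Y, _, π, χ, hπ, hχ⟩ := exists_res hM
  have hT := tow t e q (2 * K) hπ hχ
  have hbP := isP_bb t e q (2 * K) hπ hχ
  obtain ⟨U, hU⟩ : ∃ U : N → Lev (2 * K) → UU d, ∀ n l,
      U n l = α (S.f (l.1.val + 1) ((S.σ⁻¹ ^ l.2.val) n)) := ⟨_, fun _ _ => rfl⟩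
  have hf : ∀ (j : ℕ) (n : N), S.f (j + 1) n ∈ S.W (-((j + 1 : ℕ) : ℤ)) 0 :=
    fun j n => hS.f_mem _ _ (Nat.succ_pos j)
  have hfR : ∀ (j : Fin (2 * K)) (n : N), S.f (j.val + 1) n ∈ S.W (-(R : ℤ)) R :=
    fun j n => hS.mono _ _ _ _ (by omega) (by omega) (hf j.val n)
  have hUc : ∀ n l, Commute (U n l).1 (bb t e q (2 * K) l) := by
    intro n l
    rw [hU]
    exact comm_base hS hA hKR hM (by omega) (hf l.1.val _)
  have h1c : ∀ l, Commute (1 : UU d).1 (bb t e q (2 * K) l) := fun l => Commute.one_left _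
  have hUm : ∀ n n' l, U (n * n') l = U n l * U n' l := by
    intro n n' l
    rw [hU, hU, hU, map_mul, map_mul]
    exact hA.mul _ (hfR l.1 _) _ (hfR l.1 _)
  have hUs : ∀ n l, U (S.σ n) (nx (2 * K) l) = U n l := by
    intro n l
    rw [hU, hU]
    suffices key : S.f (l.1.val + 1) ((S.σ⁻¹ ^ (nx (2 * K) l).2.val) (S.σ n)) =
        S.f (l.1.val + 1) ((S.σ⁻¹ ^ l.2.val) n) from congrArg α key
    by_cases h : l.2.val < l.1.val
    · rw [nx_lt _ l h]
      congr 1
      rw [_root_.pow_succ, MulAut.mul_apply]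
      congr 1
      exact MulAut.inv_apply_self N S.σ n
    · rw [nx_last _ l h, _root_.pow_zero, MulAut.one_apply]
      have h2 : l.2.val = l.1.val := by
        have := l.2.2
        omega
      rw [← hS.f_per (l.1.val + 1) ((S.σ⁻¹ ^ l.2.val) n) (Nat.succ_pos _)]
      congr 1
      rw [h2, _root_.pow_succ', MulAut.mul_apply]
      congr 1
      rw [← MulAut.mul_apply, inv_pow, mul_inv_cancel]
      rfl
  obtain ⟨a, ha⟩ : ∃ a : N →* UU d, ∀ n, (a n).1 = Op (VV t e q (2 * K)) 1 (U n) := by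
    refine ⟨MonoidHom.mk' (fun n => ⟨Op (VV t e q (2 * K)) 1 (U n),
      Op_unitary hT 1 (U n) (fun _ => rfl) (hUc n)⟩) fun n n' => Subtype.ext ?_, fun n => rfl⟩
    show Op (VV t e q (2 * K)) 1 (U (n * n')) =
      Op (VV t e q (2 * K)) 1 (U n) * Op (VV t e q (2 * K)) 1 (U n')
    rw [Op_mul hT 1 1 (U n) (U n') (fun _ => rfl) (hUc n) (hUc n'), mul_one]
    congr 1
    funext l
    exact hUm n n' l
  obtain ⟨T, hTT⟩ : ∃ T : UU d, T.1 = Op (VV t e q (2 * K)) (nx (2 * K)) (fun _ => 1) :=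
    ⟨⟨_, Op_unitary hT (nx (2 * K)) (fun _ => 1) (fun _ => rfl) h1c⟩, rfl⟩
  have hrel : ∀ n, T * a n = a (S.σ n) * T := by
    intro n
    apply Subtype.ext
    show T.1 * (a n).1 = (a (S.σ n)).1 * T.1
    rw [ha, ha, hTT, Op_mul hT (nx (2 * K)) 1 (fun _ => 1) (U n) (fun _ => rfl) h1c (hUc n),
      Op_mul hT 1 (nx (2 * K)) (U (S.σ n)) (fun _ => 1) (fun _ => rfl) (hUc _) h1c, mul_one,
      one_mul]
    congr 1
    funext l
    show 1 * U n l = U (S.σ n) (nx (2 * K) l) * 1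
    rw [hUs, one_mul, mul_one]
  have haq : ∀ n, a n ∈ Hq (1 - q) := by
    intro n
    show (a n).1 * (1 - q) = 1 - q
    rw [ha]
    exact Op_q t e q (2 * K) hπ hχ _ _
  have hTq : T ∈ Hq (1 - q) := by
    show T.1 * (1 - q) = 1 - q
    rw [hTT]
    exact Op_q t e q (2 * K) hπ hχ _ _
  obtain ⟨ψ, hψt, hψn⟩ := exists_lift S (a.codRestrict (Hq (1 - q)) haq) ⟨T, hTq⟩
    (fun n => Subtype.ext (hrel n))
  have hψt' : (Hq (1 - q)).subtype.comp ψ (tt S) = T := by
    show (ψ (tt S)).1 = T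
    rw [hψt]
  have hψn' : ∀ n, (Hq (1 - q)).subtype.comp ψ (inn S n) = a n := by
    intro n
    show (ψ (inn S n)).1 = a n
    rw [hψn]
    rfl
  have hc : (2 * (m : ℝ) + 3) = ((2 * m + 3 : ℕ) : ℝ) := by push_cast; ring
  refine ⟨(Hq (1 - q)).subtype.comp ψ, fun g => (ψ g).2, ?_, fun n hn => ?_⟩
  · rw [hψt', hc]
    refine err_bound t e q K hπ hχ (T.1 - t.1) (fun l => l.2.val < l.1.val) (2 * m + 3) ?_ ?_
      fun z hz => fro_diff T t hz
    · intro l hl
      rw [sub_mul, hTT, Op_V hT _ _ l (h1c l), sub_eq_zero]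
      have h1 : VV t e q (2 * K) (nx (2 * K) l) =
          t.1 * (t ^ (l.2.val : ℤ) : UU d).1 * bb t e q (2 * K) l := by
        unfold VV
        rw [nx_lt _ l hl]
        have h2 : (((l.2.val + 1 : ℕ) : ℤ)) = 1 + (l.2.val : ℤ) := by push_cast; ring
        rw [h2, ← pow_mul t 1, pow_one']
        rfl
      rw [h1]
      show t.1 * (t ^ (l.2.val : ℤ) : UU d).1 * bb t e q (2 * K) l * bb t e q (2 * K) l * 1 =
        t.1 * ((t ^ (l.2.val : ℤ) : UU d).1 * bb t e q (2 * K) l)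
      rw [mul_one, mul_assoc (t.1 * (t ^ (l.2.val : ℤ) : UU d).1), (hbP l).2, mul_assoc]
    · intro j
      refine Nat.le_trans ?_ (show 1 ≤ 2 * m + 3 by omega)
      convert card_bad_one j.val
  · rw [hψn', hc]
    refine err_bound t e q K hπ hχ ((a n).1 - (α n).1)
      (fun l => m ≤ l.2.val ∧ l.2.val + m ≤ l.1.val + 1) (2 * m + 3) ?_ ?_
      fun z hz => fro_diff (a n) (α n) hz
    · rintro l ⟨hl1, hl2⟩
      have hw : (S.σ⁻¹ ^ l.2.val) n ∈ S.W (-((l.1.val + 1 : ℕ) : ℤ)) 0 :=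
        hS.mono _ _ _ _ (by push_cast; omega) (by omega) (sig_inv hS l.2.val _ _ n hn)
      have h1 : U n l = α ((S.σ⁻¹ ^ l.2.val) n) := by
        rw [hU, hS.f_id _ _ (Nat.succ_pos _) hw]
      have h2 : t ^ l.2.val * U n l = α n * t ^ l.2.val := by
        rw [h1, conj_rel hS hA l.2.val hw (by omega) (by omega)]
        congr 2
        rw [← MulAut.mul_apply, inv_pow, mul_inv_cancel]
        rfl
      have h3 : (t ^ (l.2.val : ℤ) : UU d).1 * (U n l).1 = (α n).1 * (t ^ (l.2.val : ℤ) : UU d).1 := by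
        have := congrArg Subtype.val h2
        rw [_root_.zpow_natCast]
        exact this
      rw [sub_mul, ha, Op_V hT _ _ l (hUc n l), sub_eq_zero]
      show VV t e q (2 * K) l * bb t e q (2 * K) l * (U n l).1 = (α n).1 * VV t e q (2 * K) l
      rw [hT.vb]
      unfold VV
      rw [mul_assoc, ← (hUc n l).eq, ← mul_assoc, h3, mul_assoc]
    · intro j
      refine Nat.le_trans ?_ (show 2 * m ≤ 2 * m + 3 by omega)
      convert card_bad_two j.val m

end

end Pool.Agent.N196.AS
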