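import Pool.Agent.N196.AS.Res

/-!
# SKYH, part 2: literals, levels of the towers
-/

set_option autoImplicit false
set_option linter.unusedSectionVars false

namespace Pool.Agent.N196.AS

open Finset Matrix Pool.Agent.N139.AS
open Pool.Agent.H698R3.Amalg (fro fn fro_eq_re fro_nonneg fro_neg fro_mul_left fn_add_le fn_sq fn_nonneg)

noncomputable section

/-- kind (`true` for `e`), sign, index -/
abbrev Lit : Type := Bool × Bool × ℤ

/-- the base of a literal -/
def bs {d : ℕ} (e q : Mt d) (k : Bool) : Mt d := bif k then e else q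

/-- the value of a literal -/
def lv {d : ℕ} (t : UU d) (e q : Mt d) (l : Lit) : Mt d :=
  if l.2.1 = true then cj t l.2.2 (bs e q l.1) else 1 - cj t l.2.2 (bs e q l.1)

/-- product of literals -/
def LP {d : ℕ} (t : UU d) (e q : Mt d) (L : List Lit) : Mt d := (L.map (lv t e q)).prod

/-- shift of a literal -/
def sh (i : ℤ) (l : Lit) : Lit := (l.1, l.2.1, i + l.2.2)

/-- satisfaction of a literal -/
def sat {Y : Type} (χ : Bool → ℤ → Y → Prop) (l : Lit) (y : Y) : Prop :=
  if l.2.1 = true then χ l.1 l.2.2 y else ¬ χ l.1 l.2.2 y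

section lit

variable {d : ℕ} (t : UU d) (e q : Mt d)

theorem cj_lv (i : ℤ) (l : Lit) : cj t i (lv t e q l) = lv t e q (sh i l) := by
  unfold lv sh
  by_cases h : l.2.1 = true
  · rw [if_pos h, if_pos h, cj_cj]
  · rw [if_neg h, if_neg h, cj_sub, cj_one, cj_cj]

theorem cj_LP (i : ℤ) (L : List Lit) : cj t i (LP t e q L) = LP t e q (L.map (sh i)) := by
  induction L with
  | nil => exact cj_one t i
  | cons l L ih =>
    show cj t i (lv t e q l * LP t e q L) = lv t e q (sh i l) * LP t e q (L.map (sh i))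
    rw [cj_mul, ih, cj_lv]

theorem LP_comm {M : Mt d} (L : List Lit)
    (h : ∀ l ∈ L, Commute M (cj t l.2.2 (bs e q l.1))) : Commute M (LP t e q L) := by
  unfold LP
  refine Commute.list_prod_right _ _ fun x hx => ?_
  obtain ⟨l, hl, rfl⟩ := List.mem_map.1 hx
  unfold lv
  by_cases h1 : l.2.1 = true
  · rw [if_pos h1]
    exact h l hl
  · rw [if_neg h1]
    exact (Commute.one_right M).sub_right (h l hl)

variable {Y : Type} [Fintype Y] {π : Y → Mt d} {χ : Bool → ℤ → Y → Prop} {M : ℕ}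

theorem LP_eq (hπ : Rs π) (hχ : ∀ (k : Bool) (i : ℤ), |i| ≤ M → cj t i (bs e q k) = Ph π (χ k i))
    (L : List Lit) (hL : ∀ l ∈ L, |l.2.2| ≤ M) :
    LP t e q L = Ph π (fun y => ∀ l ∈ L, sat χ l y) := by
  induction L with
  | nil =>
    show (1 : Mt d) = _
    rw [← Ph_true hπ]
    exact Ph_congr fun y => by simp
  | cons l L ih =>
    show lv t e q l * LP t e q L = _
    rw [ih fun l' hl' => hL l' (List.mem_cons_of_mem _ hl')]
    have h1 : lv t e q l = Ph π (sat χ l) := by
      unfold lv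
      rw [hχ _ _ (hL l List.mem_cons_self)]
      by_cases h : l.2.1 = true
      · rw [if_pos h]
        exact Ph_congr fun y => by
          unfold sat
          rw [if_pos h]
      · rw [if_neg h, Ph_compl hπ]
        exact Ph_congr fun y => by
          unfold sat
          rw [if_neg h]
    rw [h1, Ph_mul hπ]
    exact Ph_congr fun y => by simp

end lit

/-- common resolution for the translates of the marks and of the region -/
theorem exists_res {N : Type} [Group N] {S : WD N} {M : ℕ} {d : ℕ} {α : N → UU d} {t : UU d}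
    {e q : Mt d} (h : Mk S M α t e q) :
    ∃ (Y : Type) (_ : Fintype Y) (π : Y → Mt d) (χ : Bool → ℤ → Y → Prop), Rs π ∧
      ∀ (k : Bool) (i : ℤ), |i| ≤ M → cj t i (bs e q k) = Ph π (χ k i) := by
  classical
  let I : Type := Bool × ↥(Finset.Icc (-(M : ℤ)) M)
  let p : I → Mt d := fun a => cj t a.2.1 (bs e q a.1)
  have hI : ∀ a : I, |a.2.1| ≤ M := fun a => by
    have := Finset.mem_Icc.1 a.2.2
    exact abs_le.2 this
  obtain ⟨Y, _, _, π, χ, hπ, h1, -⟩ := resolve_aux p (fun a => by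
      refine isP_cj t _ ?_
      cases a.1
      · exact h.pq
      · exact h.pe) (fun a b => by
      obtain ⟨k, i⟩ := a
      obtain ⟨k', j⟩ := b
      have hi : |i.1| ≤ M := hI (k, i)
      have hj : |j.1| ≤ M := hI (k', j)
      cases k <;> cases k'
      · exact h.qq i j hi hj
      · exact (h.eq j i hj hi).symm
      · exact h.eq i j hi hj
      · exact h.ee i j hi hj) Finset.univ
  refine ⟨Y, inferInstance, π,
    fun k i y => ∃ hi : i ∈ Finset.Icc (-(M : ℤ)) M, χ (k, ⟨i, hi⟩) y, hπ, fun k i hi => ?_⟩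
  have hi' : i ∈ Finset.Icc (-(M : ℤ)) M := Finset.mem_Icc.2 (abs_le.1 hi)
  have h2 := h1 (k, ⟨i, hi'⟩) (Finset.mem_univ _)
  show p (k, ⟨i, hi'⟩) = _
  rw [h2]
  exact Ph_congr fun y => ⟨fun h => ⟨hi', h⟩, fun ⟨_, h⟩ => h⟩

/-! ### the projections below the towers -/

/-- the literals of the base of the tower of height `j` -/
def LB (j : ℕ) : List Lit :=
  (true, true, 0) :: (true, true, -(j : ℤ)) ::
    ((List.range j).map (fun i : ℕ => ((false, true, -(i : ℤ)) : Lit)) ++
      (List.range (j - 1)).map fun i : ℕ => ((true, false, -((i : ℤ) + 1)) : Lit))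

/-- the level `i` of the tower of height `j` -/
def PP {Y : Type} (χ : Bool → ℤ → Y → Prop) (j i : ℕ) (y : Y) : Prop :=
  χ true i y ∧ χ true ((i : ℤ) - j) y ∧ (∀ k : ℕ, k < j → χ false ((i : ℤ) - k) y) ∧
    ∀ k : ℕ, k < j - 1 → ¬ χ true ((i : ℤ) - (k + 1)) y

theorem sat_LB {Y : Type} (χ : Bool → ℤ → Y → Prop) (j i : ℕ) (y : Y) :
    (∀ l ∈ (LB j).map (sh i), sat χ l y) ↔ PP χ j i y := by
  unfold LB PP
  simp only [List.map_cons, List.map_append, List.map_map, List.mem_cons, List.mem_append,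
    List.mem_map, List.mem_range, Function.comp_apply, sh]
  constructor
  · intro h
    refine ⟨?_, ?_, fun k hk => ?_, fun k hk => ?_⟩
    · have := h _ (Or.inl rfl)
      simpa [sat] using this
    · have := h _ (Or.inr (Or.inl rfl))
      simpa [sat, sub_eq_add_neg] using this
    · have := h _ (Or.inr (Or.inr (Or.inl ⟨k, hk, rfl⟩)))
      simpa [sat, sub_eq_add_neg] using this
    · have := h _ (Or.inr (Or.inr (Or.inr ⟨k, hk, rfl⟩)))
      simp only [sat] at this
      rw [sub_eq_add_neg]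
      simpa using this
  · rintro ⟨h1, h2, h3, h4⟩ l (rfl | rfl | ⟨k, hk, rfl⟩ | ⟨k, hk, rfl⟩)
    · simpa [sat] using h1
    · simpa [sat, sub_eq_add_neg] using h2
    · have := h3 k hk
      simpa [sat, sub_eq_add_neg] using this
    · have := h4 k hk
      rw [sub_eq_add_neg] at this
      simpa [sat] using this

theorem LB_bound {j i M : ℕ} (hij : i ≤ j) (hj : j ≤ M) :
    ∀ l ∈ (LB j).map (sh i), |l.2.2| ≤ (M : ℤ) := by
  intro l hl
  unfold LB at hl
  simp only [List.map_cons, List.map_append, List.map_map, List.mem_cons, List.mem_append,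
    List.mem_map, List.mem_range, Function.comp_apply, sh] at hl
  rw [abs_le]
  rcases hl with rfl | rfl | ⟨k, hk, rfl⟩ | ⟨k, hk, rfl⟩ <;> constructor <;> simp only <;> omega

theorem LB_idx {j : ℕ} : ∀ l ∈ LB j, ∃ i : ℕ, i ≤ j ∧ l.2.2 = -(i : ℤ) := by
  intro l hl
  unfold LB at hl
  simp only [List.mem_cons, List.mem_append, List.mem_map, List.mem_range] at hl
  rcases hl with rfl | rfl | ⟨k, hk, rfl⟩ | ⟨k, hk, rfl⟩
  · exact ⟨0, Nat.zero_le _, by simp⟩
  · exact ⟨j, le_rfl, rfl⟩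
  · exact ⟨k, hk.le, rfl⟩
  · exact ⟨k + 1, by omega, by push_cast; ring⟩

theorem PP_disj {Y : Type} {χ : Bool → ℤ → Y → Prop} {j i j' i' : ℕ} {y : Y} (hij : i < j)
    (hij' : i' < j') (h : PP χ j i y) (h' : PP χ j' i' y) : j = j' ∧ i = i' := by
  have key : ∀ (j i j' i' : ℕ), i < j → i' < j' → PP χ j i y → PP χ j' i' y → ¬ i < i' := by
    intro j i j' i' hij hij' h h' hlt
    have h1 := h'.2.2.2 (i' - i - 1) (by omega)
    have h2 : (i' : ℤ) - (((i' - i - 1 : ℕ) : ℤ) + 1) = i := by omega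
    rw [h2] at h1
    exact h1 h.1
  have hi : i = i' := by
    have h1 := key j i j' i' hij hij' h h'
    have h2 := key j' i' j i hij' hij h' h
    omega
  subst hi
  have key2 : ∀ (j j' : ℕ), i < j → PP χ j i y → PP χ j' i y → ¬ j < j' := by
    intro j j' hij h h' hlt
    have h1 := h'.2.2.2 (j - 1) (by omega)
    have h2 : (i : ℤ) - (((j - 1 : ℕ) : ℤ) + 1) = i - j := by omega
    rw [h2] at h1
    exact h1 h.2.1
  have h1 := key2 j j' hij h h'
  have h2 := key2 j' j hij' h' h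
  exact ⟨by omega, rfl⟩

/-- a point of the region is in a tower or misses the marks on one side or is near the boundary -/
theorem cover {Y : Type} {χ : Bool → ℤ → Y → Prop} {K : ℕ} {y : Y}
    (h1 : ¬ ∀ i : ℕ, i < K + 1 → ¬ χ true i y)
    (h2 : ¬ ∀ i : ℕ, i < K → ¬ χ true (-((i : ℤ) + 1)) y)
    (h3 : ∀ i : ℤ, i ∈ Finset.Icc (-(K : ℤ)) K → χ false i y) :
    ∃ j i : ℕ, 1 ≤ j ∧ j ≤ 2 * K ∧ i < j ∧ PP χ j i y := by
  classical
  push Not at h1 h2
  obtain ⟨i, hiK, hi, himin⟩ : ∃ i : ℕ, i < K + 1 ∧ χ true i y ∧ ∀ k < i, ¬ χ true (k : ℕ) y := by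
    have hex : ∃ i : ℕ, χ true i y := ⟨h1.choose, h1.choose_spec.2⟩
    refine ⟨Nat.find hex, ?_, Nat.find_spec hex, fun k hk => Nat.find_min hex hk⟩
    exact lt_of_le_of_lt (Nat.find_min' hex h1.choose_spec.2) h1.choose_spec.1
  obtain ⟨h, hhK, hh, hhmin⟩ : ∃ h : ℕ, h < K ∧ χ true (-((h : ℤ) + 1)) y ∧
      ∀ k < h, ¬ χ true (-((k : ℤ) + 1)) y := by
    have hex : ∃ h : ℕ, χ true (-((h : ℤ) + 1)) y := ⟨h2.choose, h2.choose_spec.2⟩
    refine ⟨Nat.find hex, ?_, Nat.find_spec hex, fun k hk => Nat.find_min hex hk⟩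
    exact lt_of_le_of_lt (Nat.find_min' hex h2.choose_spec.2) h2.choose_spec.1
  refine ⟨i + (h + 1), i, by omega, by omega, by omega, hi, ?_, fun k hk => ?_, fun k hk => ?_⟩
  · have : (i : ℤ) - ((i + (h + 1) : ℕ) : ℤ) = -((h : ℤ) + 1) := by push_cast; ring
    rw [this]
    exact hh
  · refine h3 _ (Finset.mem_Icc.2 ?_)
    constructor <;> omega
  · by_cases hki : k + 1 ≤ i
    · have h4 : (i : ℤ) - ((k : ℤ) + 1) = ((i - (k + 1) : ℕ) : ℤ) := by omega
      rw [h4]
      exact himin _ (by omega)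
    · have h4 : (i : ℤ) - ((k : ℤ) + 1) = -(((k - i : ℕ) : ℤ) + 1) := by omega
      rw [h4]
      exact hhmin _ (by omega)

end

end Pool.Agent.N196.AS
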