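import Pool.Agent.N343.AS.Stm

/-!
Remainders at the exceptional point (project AS of helper343, MP_160bbb_an).
-/

open Filter Topology Finset

namespace Pool.Agent.N196.AS

open Pool.Agent.N343.AS

lemma Z_pos (N : ℕ) : 0 < Z N := by unfold Z; positivity

lemma E_succ (N : ℕ) : E (N + 1) = E N + (Q N + N + L N) := by
  simp only [E, L]; omega

lemma Z_eq (N : ℕ) : Z N = 2 ^ (Q N + N + L N) * Z (N + 1) := by
  unfold Z
  rw [E_succ, pow_add]
  have : (2 : ℝ) ^ (Q N + N + L N) * (1 / 2) ^ (Q N + N + L N) = 1 := by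
    rw [← mul_pow]; norm_num
  calc (1 / 2 : ℝ) ^ E N = (1 / 2) ^ E N * 1 := by ring
    _ = (1 / 2) ^ E N * ((2 : ℝ) ^ (Q N + N + L N) * (1 / 2) ^ (Q N + N + L N)) := by rw [this]
    _ = _ := by ring

lemma four_le (N : ℕ) : 4 * Z (N + 1) ≤ Z N := by
  rw [Z_eq N]
  have h : (4 : ℝ) ≤ 2 ^ (Q N + N + L N) := by
    calc (4 : ℝ) = 2 ^ 2 := by norm_num
      _ ≤ 2 ^ (Q N + N + L N) := by
        apply pow_le_pow_right₀ (by norm_num)
        have : 12 ≤ L N := by unfold L; omega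
        omega
  exact mul_le_mul_of_nonneg_right h (Z_pos _).le

/-- the lattice of level `M` -/
def Lat (M : ℕ) (x : ℝ) : Prop := ∃ z : ℤ, x = z * (Z (M + 1) / 2 ^ (Q M))

lemma Lat.add {M : ℕ} {x y : ℝ} (hx : Lat M x) (hy : Lat M y) : Lat M (x + y) := by
  obtain ⟨a, rfl⟩ := hx
  obtain ⟨b, rfl⟩ := hy
  exact ⟨a + b, by push_cast; ring⟩

lemma Lat.sub {M : ℕ} {x y : ℝ} (hx : Lat M x) (hy : Lat M y) : Lat M (x - y) := by
  obtain ⟨a, rfl⟩ := hx
  obtain ⟨b, rfl⟩ := hy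
  exact ⟨a - b, by push_cast; ring⟩

lemma Lat.sum {ι : Type} {M : ℕ} (s : Finset ι) (f : ι → ℝ) (h : ∀ i ∈ s, Lat M (f i)) :
    Lat M (∑ i ∈ s, f i) := by
  classical
  induction s using Finset.induction_on with
  | empty => exact ⟨0, by simp⟩
  | insert a s ha ih =>
    rw [Finset.sum_insert ha]
    exact (h a (Finset.mem_insert_self _ _)).add (ih fun i hi => h i (Finset.mem_insert_of_mem hi))

lemma Lat.int {M : ℕ} (z : ℤ) : Lat M (z * Z (M + 1)) := by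
  refine ⟨z * 2 ^ (Q M), ?_⟩
  push_cast
  field_simp

lemma Lat.succ {M : ℕ} {x : ℝ} (h : Lat M x) : Lat (M + 1) x := by
  obtain ⟨z, rfl⟩ := h
  refine ⟨z * 2 ^ (Q (M + 1) + (M + 1) + L (M + 1) + (M + 5)), ?_⟩
  rw [Z_eq (M + 1)]
  have hQ : Q (M + 1) = Q M + (M + 5) := rfl
  have h2 : (2 : ℝ) ^ (Q (M + 1)) = 2 ^ (Q M) * 2 ^ (M + 5) := by rw [hQ, pow_add]
  push_cast
  rw [h2, pow_add _ _ (M + 5)]
  field_simp

lemma Lat.le {k M : ℕ} (hk : k ≤ M) {x : ℝ} (h : Lat k x) : Lat M x := by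
  induction M, hk using Nat.le_induction with
  | base => exact h
  | succ n _ ih => exact ih.succ

theorem main (hR : S_RR) (hT : S_TOT) (hL : S_LAT) : S_RAN := by
  obtain ⟨hR1, hR2, hR3⟩ := hR
  obtain ⟨hT1, hT2, hT3⟩ := hT
  intro S j N₀ hN₀ hj hlim N hN
  set t : ℕ → ℝ := fun k => ∑ t ∈ S k, cT k t + (j k : ℝ) * Z (k + 1) with ht
  change ∃ m : ℕ, (m : ℝ) / 2 ^ (Q (N - 1)) < 1 ∧ rr 0 - ∑ k ∈ range N, t k
      = rr N + (m : ℝ) / 2 ^ (Q (N - 1)) * Z N
  replace hlim : Tendsto (fun K => ∑ k ∈ range K, t k) atTop (𝓝 (rr 0)) := hlim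
  -- bounds for the terms
  have hS0 : ∀ k, 0 ≤ ∑ t ∈ S k, cT k t := fun k => Finset.sum_nonneg fun t _ => (hT1 k t).le
  have hS1 : ∀ k, ∑ t ∈ S k, cT k t ≤ (2 ^ (E (k + 1) - E k) - 2 ^ k) * Z (k + 1) := by
    intro k
    rw [← hT2 k]
    exact Finset.sum_le_sum_of_subset_of_nonneg (Finset.subset_univ _) fun t _ _ => (hT1 k t).le
  have hjl : ∀ k, N₀ ≤ k → -(2 ^ k : ℝ) * Z (k + 1) ≤ (j k : ℝ) * Z (k + 1) := by
    intro k hk
    refine mul_le_mul_of_nonneg_right ?_ (Z_pos _).le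
    have := (abs_le.mp (hj k hk)).1
    exact_mod_cast this
  have hju : ∀ k, N₀ ≤ k → (j k : ℝ) * Z (k + 1) ≤ (2 ^ k : ℝ) * Z (k + 1) := by
    intro k hk
    refine mul_le_mul_of_nonneg_right ?_ (Z_pos _).le
    have := (abs_le.mp (hj k hk)).2
    exact_mod_cast this
  have hlow : ∀ k, N₀ ≤ k → -(2 ^ k : ℝ) * Z (k + 1) ≤ t k := by
    intro k hk
    have := hS0 k
    have := hjl k hk
    simp only [ht]
    linarith
  have hup : ∀ k, N₀ ≤ k → t k ≤ Z k := by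
    intro k hk
    have h1 := hS1 k
    have h2 := hju k hk
    have h3 := hT3 k
    simp only [ht]
    nlinarith
  -- partial sums from N on
  have hlowS : ∀ K, N ≤ K → ∑ k ∈ range N, t k - 2 ^ (N + 1) * Z (N + 1) + 2 ^ (K + 1) * Z (K + 1)
      ≤ ∑ k ∈ range K, t k := by
    intro K hK
    induction K, hK using Nat.le_induction with
    | base => linarith
    | succ K hK ih =>
      rw [Finset.sum_range_succ]
      have h1 := hlow K (hN.trans hK)
      have h2 := four_le (K + 1)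
      have h3 : (0 : ℝ) < 2 ^ K := by positivity
      have h4 : (2 : ℝ) ^ (K + 1 + 1) * Z (K + 1 + 1) ≤ 2 ^ K * Z (K + 1) := by
        have : (2 : ℝ) ^ (K + 1 + 1) = 2 ^ K * 4 := by ring
        rw [this, mul_assoc]
        exact mul_le_mul_of_nonneg_left h2 h3.le
      have h5 : (2 : ℝ) ^ (K + 1) * Z (K + 1) = 2 * (2 ^ K * Z (K + 1)) := by ring
      linarith
  have hupS : ∀ K, N ≤ K → ∑ k ∈ range K, t k
      ≤ ∑ k ∈ range N, t k + (Z N + 2 * Z (N + 1)) - (Z K + 2 * Z (K + 1)) := by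
    intro K hK
    induction K, hK using Nat.le_induction with
    | base => linarith
    | succ K hK ih =>
      rw [Finset.sum_range_succ]
      have h1 := hup K (hN.trans hK)
      have h2 := four_le (K + 1)
      have h3 := Z_pos (K + 1 + 1)
      linarith
  have ha1 : ∑ k ∈ range N, t k - 2 ^ (N + 1) * Z (N + 1) ≤ rr 0 := by
    refine ge_of_tendsto hlim ?_
    filter_upwards [eventually_ge_atTop N] with K hK
    have := hlowS K hK
    have h3 := Z_pos (K + 1)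
    have : (0 : ℝ) ≤ 2 ^ (K + 1) * Z (K + 1) := by positivity
    linarith
  have ha2 : rr 0 ≤ ∑ k ∈ range N, t k + (Z N + 2 * Z (N + 1)) := by
    refine le_of_tendsto hlim ?_
    filter_upwards [eventually_ge_atTop N] with K hK
    have := hupS K hK
    have h3 := Z_pos (K + 1)
    have h4 := Z_pos K
    linarith
  -- the lattice
  obtain ⟨M, rfl⟩ : ∃ M, N = M + 1 := ⟨N - 1, by omega⟩
  have hlat1 : Lat M (∑ k ∈ range (M + 1), t k) := by
    refine Lat.sum _ _ fun k hk => ?_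
    have hk' : k ≤ M := by
      have := Finset.mem_range.mp hk
      omega
    refine Lat.add (Lat.sum _ _ fun i _ => ?_) ?_
    · exact Lat.le hk' (hL k i)
    · exact Lat.le hk' (Lat.int (j k))
  have hrr : ∀ K, rr 0 - rr K = ∑ k ∈ range K, (vv k : ℝ) * Z (k + 1) := by
    intro K
    induction K with
    | zero => simp
    | succ K ih =>
      rw [Finset.sum_range_succ, ← ih]
      have := hR1 K
      linarith
  have hlat2 : Lat M (rr 0 - rr (M + 1)) := by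
    rw [hrr]
    refine Lat.sum _ _ fun k hk => ?_
    have hk' : k ≤ M := by
      have := Finset.mem_range.mp hk
      omega
    have := Lat.le hk' (Lat.int (M := k) (vv k : ℤ))
    simpa using this
  obtain ⟨z, hz⟩ := hlat2.sub hlat1
  -- the numbers
  set w : ℝ := Z (M + 2) with hw
  have hwpos : 0 < w := Z_pos _
  have hZ : Z (M + 1) = 2 ^ (Q (M + 1) + (M + 1) + L (M + 1)) * w := Z_eq (M + 1)
  have hZpos := Z_pos (M + 1)
  have hb := hR2 (M + 1)
  have hv := hR3 (M + 1)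
  have hv1 : (21 : ℝ) ≤ vv (M + 1) := by
    have h : 4 ^ 3 ≤ 4 ^ (M + 1 + 3) := Nat.pow_le_pow_right (by norm_num) (by omega)
    have : 21 ≤ vv (M + 1) := by omega
    exact_mod_cast this
  have hv2 : (vv (M + 1) : ℝ) + 1 ≤ 4 ^ (M + 1 + 3) := by
    have h : 4 ^ 3 ≤ 4 ^ (M + 1 + 3) := Nat.pow_le_pow_right (by norm_num) (by omega)
    have : vv (M + 1) + 1 ≤ 4 ^ (M + 1 + 3) := by omega
    exact_mod_cast this
  have hqpos : (0 : ℝ) < 2 ^ (Q M) := by positivity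
  have hsmall : (2 ^ (M + 1 + 1) + (vv (M + 1) + 1) : ℝ) * w < Z (M + 1) / 2 ^ (Q M) := by
    rw [lt_div_iff₀ hqpos, hZ]
    have e1 : (2 ^ (M + 1 + 1) + (vv (M + 1) + 1) : ℝ) < 2 ^ (2 * M + 10) := by
      have e2 : (4 : ℝ) ^ (M + 1 + 3) = 2 ^ (2 * M + 8) := by
        rw [show (4 : ℝ) = 2 ^ 2 by norm_num, ← pow_mul]
        congr 1
      have e3 : (2 : ℝ) ^ (M + 1 + 1) ≤ 2 ^ (2 * M + 8) :=
        pow_le_pow_right₀ (by norm_num) (by omega)
      have e4 : (2 : ℝ) ^ (2 * M + 10) = 4 * 2 ^ (2 * M + 8) := by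
        rw [show 2 * M + 10 = 2 + (2 * M + 8) by ring, pow_add]
        norm_num
      have e5 : (0 : ℝ) < 2 ^ (2 * M + 8) := by positivity
      rw [e2] at hv2
      linarith
    have e6 : (2 : ℝ) ^ (2 * M + 10) * 2 ^ (Q M) ≤ 2 ^ (Q (M + 1) + (M + 1) + L (M + 1)) := by
      rw [← pow_add]
      refine pow_le_pow_right₀ (by norm_num) ?_
      have hQ : Q (M + 1) = Q M + (M + 5) := rfl
      have : 2 * (M + 1) + 12 ≤ L (M + 1) := by unfold L; omega
      omega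
    calc (2 ^ (M + 1 + 1) + (vv (M + 1) + 1) : ℝ) * w * 2 ^ (Q M)
        = (2 ^ (M + 1 + 1) + (vv (M + 1) + 1) : ℝ) * (w * 2 ^ (Q M)) := by ring
      _ < 2 ^ (2 * M + 10) * (w * 2 ^ (Q M)) := mul_lt_mul_of_pos_right e1 (by positivity)
      _ = (2 ^ (2 * M + 10) * 2 ^ (Q M)) * w := by ring
      _ ≤ _ := mul_le_mul_of_nonneg_right e6 hwpos.le
  set q : ℝ := Z (M + 1) / 2 ^ (Q M) with hq
  have hqp : 0 < q := by positivity
  have hz0 : 0 ≤ z := by
    by_contra hneg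
    have h1 : z ≤ -1 := by omega
    have h2 : (z : ℝ) ≤ -1 := by exact_mod_cast h1
    have h3 : (z : ℝ) * q ≤ -q := by nlinarith
    have h4 := hb.2
    nlinarith [hsmall, ha1, hz]
  obtain ⟨m, rfl⟩ := Int.eq_ofNat_of_zero_le hz0
  simp only [Nat.add_sub_cancel]
  have hfin : rr 0 - ∑ k ∈ range (M + 1), t k = rr (M + 1) + (m : ℝ) / 2 ^ (Q M) * Z (M + 1) := by
    have : ((m : ℤ) : ℝ) * q = (m : ℝ) / 2 ^ (Q M) * Z (M + 1) := by
      rw [hq]; push_cast; ring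
    rw [← this]
    have h' : rr 0 - rr (M + 1) - ∑ k ∈ range (M + 1), t k = ((m : ℤ) : ℝ) * q := hz
    linarith
  refine ⟨m, ?_, hfin⟩
  have h4 := hb.1
  by_contra hge
  have hge' : (1 : ℝ) ≤ (m : ℝ) / 2 ^ (Q M) := not_lt.mp hge
  have h5 : Z (M + 1) ≤ (m : ℝ) / 2 ^ (Q M) * Z (M + 1) := by nlinarith
  have h6 : (21 : ℝ) * w ≤ vv (M + 1) * w := mul_le_mul_of_nonneg_right hv1 hwpos.le
  linarith

end Pool.Agent.N196.AS
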