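import Pool.Agent.N139.AS.Stm

/-!
# SKYH, part 1: conjugation, resolutions of the identity, towers
-/

set_option autoImplicit false
set_option linter.unusedSectionVars false

namespace Pool.Agent.N196.AS

open Finset Matrix Pool.Agent.N139.AS
open Pool.Agent.H698R3.Amalg (fro fn fro_eq_re fro_nonneg fro_neg fro_mul_left fn_add_le fn_sq fn_nonneg)

noncomputable section

/-! ### conjugation -/

section conj

variable {d : ℕ} (t : UU d)

theorem pow_mul (i j : ℤ) : (t ^ i : UU d).1 * (t ^ j : UU d).1 = (t ^ (i + j) : UU d).1 := by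
  rw [_root_.zpow_add]
  rfl

theorem pow_zero' : (t ^ (0 : ℤ) : UU d).1 = 1 := by
  rw [_root_.zpow_zero]
  rfl

theorem pow_one' : (t ^ (1 : ℤ) : UU d).1 = t.1 := by
  rw [_root_.zpow_one]

theorem pow_neg_mul (i : ℤ) : (t ^ (-i) : UU d).1 * (t ^ i : UU d).1 = 1 := by
  rw [pow_mul, neg_add_cancel, pow_zero']

theorem pow_mul_neg (i : ℤ) : (t ^ i : UU d).1 * (t ^ (-i) : UU d).1 = 1 := by
  rw [pow_mul, add_neg_cancel, pow_zero']

theorem star_pow (i : ℤ) : ((t ^ i : UU d).1)ᴴ = (t ^ (-i) : UU d).1 := by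
  rw [_root_.zpow_neg]
  rfl

theorem cj_zero (x : Mt d) : cj t 0 x = x := by
  unfold cj
  rw [neg_zero, pow_zero', one_mul, mul_one]

theorem cj_mul (i : ℤ) (x y : Mt d) : cj t i (x * y) = cj t i x * cj t i y := by
  unfold cj
  calc (t ^ i : UU d).1 * (x * y) * (t ^ (-i) : UU d).1
      = (t ^ i : UU d).1 * x * 1 * y * (t ^ (-i) : UU d).1 := by noncomm_ring
    _ = _ := by rw [← pow_neg_mul t i]; noncomm_ring

theorem cj_one (i : ℤ) : cj t i 1 = 1 := by
  unfold cj
  rw [mul_one, pow_mul_neg]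

theorem cj_sub (i : ℤ) (x y : Mt d) : cj t i (x - y) = cj t i x - cj t i y := by
  unfold cj
  noncomm_ring

theorem cj_cj (i k : ℤ) (x : Mt d) : cj t i (cj t k x) = cj t (i + k) x := by
  unfold cj
  have h : -(i + k) = -k + -i := by ring
  rw [h, ← pow_mul, ← pow_mul]
  noncomm_ring

theorem rtr_cj (i : ℤ) (x : Mt d) : rtr (cj t i x) = rtr x := by
  unfold rtr cj
  rw [Matrix.mul_assoc, Matrix.trace_mul_comm, Matrix.mul_assoc, pow_neg_mul, Matrix.mul_one]

end conj

theorem isP_mul {d : ℕ} {x y : Mt d} (hx : IsP x) (hy : IsP y) (h : Commute x y) : IsP (x * y) := by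
  constructor
  · unfold Matrix.IsHermitian
    rw [conjTranspose_mul, hx.1, hy.1]
    exact h.symm
  · calc x * y * (x * y) = x * (y * x) * y := by noncomm_ring
      _ = x * (x * y) * y := by rw [h.eq]
      _ = x * x * (y * y) := by noncomm_ring
      _ = x * y := by rw [hx.2, hy.2]

theorem isP_compl {d : ℕ} {x : Mt d} (hx : IsP x) : IsP (1 - x) := by
  constructor
  · unfold Matrix.IsHermitian
    rw [conjTranspose_sub, conjTranspose_one, hx.1]
  · rw [sub_mul, mul_sub, mul_sub, hx.2]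
    noncomm_ring

theorem isP_one {d : ℕ} : IsP (1 : Mt d) := ⟨Matrix.isHermitian_one, one_mul 1⟩

theorem isP_cj {d : ℕ} (t : UU d) (i : ℤ) {x : Mt d} (hx : IsP x) : IsP (cj t i x) := by
  constructor
  · unfold Matrix.IsHermitian cj
    rw [conjTranspose_mul, conjTranspose_mul, hx.1, star_pow, star_pow, neg_neg, Matrix.mul_assoc]
  · rw [← cj_mul, hx.2]

theorem fro_isP {d : ℕ} {x : Mt d} (hx : IsP x) : fro x = rtr x := by
  rw [fro_eq_re, hx.1, hx.2]
  rfl

theorem rtr_nonneg {d : ℕ} {x : Mt d} (hx : IsP x) : 0 ≤ rtr x := by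
  rw [← fro_isP hx]
  exact fro_nonneg x

theorem fro_diff {d : ℕ} (u v : UU d) {z : Mt d} (hz : IsP z) :
    fro ((u.1 - v.1) * z) ≤ 4 * rtr z := by
  have h1 : fn ((u.1 - v.1) * z) ≤ fn (u.1 * z) + fn (v.1 * z) := by
    rw [sub_mul]
    have := fn_add_le (u.1 * z) (-(v.1 * z))
    rw [← sub_eq_add_neg] at this
    refine this.trans (le_of_eq ?_)
    congr 1
    unfold fn
    rw [fro_neg]
  have hu : u.1ᴴ * u.1 = 1 := (Matrix.mem_unitaryGroup_iff'.1 u.2)
  have hv : v.1ᴴ * v.1 = 1 := (Matrix.mem_unitaryGroup_iff'.1 v.2)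
  have h2 : fn (u.1 * z) = fn z := by
    unfold fn
    rw [fro_mul_left _ hu]
  have h3 : fn (v.1 * z) = fn z := by
    unfold fn
    rw [fro_mul_left _ hv]
  rw [h2, h3] at h1
  rw [← fn_sq, ← fro_isP hz, ← fn_sq z]
  nlinarith [fn_nonneg ((u.1 - v.1) * z), fn_nonneg z]

/-! ### resolutions of the identity -/

/-- a resolution of the identity -/
structure Rs {Y : Type} [Fintype Y] {d : ℕ} (π : Y → Mt d) : Prop where
  isP : ∀ y, IsP (π y)
  orth : ∀ y y', y ≠ y' → π y * π y' = 0
  one : ∑ y, π y = 1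

open Classical in
/-- the projection of a set -/
def Ph {Y : Type} [Fintype Y] {d : ℕ} (π : Y → Mt d) (S : Y → Prop) : Mt d :=
  ∑ y, if S y then π y else 0

open Classical in
/-- indicator -/
def ix (P : Prop) (w : ℝ) : ℝ := if P then w else 0

theorem ix_pos {P : Prop} (h : P) (w : ℝ) : ix P w = w := if_pos h

theorem ix_neg {P : Prop} (h : ¬ P) (w : ℝ) : ix P w = 0 := if_neg h

theorem ix_nonneg (P : Prop) {w : ℝ} (hw : 0 ≤ w) : 0 ≤ ix P w := by
  unfold ix
  split_ifs
  · exact hw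
  · exact le_rfl

/-- the mass of a set -/
def ms {Y : Type} [Fintype Y] {d : ℕ} (π : Y → Mt d) (S : Y → Prop) : ℝ :=
  ∑ y, ix (S y) (rtr (π y))

section Ph

variable {Y : Type} [Fintype Y] {d : ℕ} {π : Y → Mt d}

theorem Ph_congr {S T : Y → Prop} (h : ∀ y, S y ↔ T y) : Ph π S = Ph π T := by
  have : S = T := funext fun y => propext (h y)
  rw [this]

theorem Ph_true (hπ : Rs π) : Ph π (fun _ => True) = 1 := by
  unfold Ph
  simp [hπ.one]

theorem Ph_false : Ph π (fun _ => False) = 0 := by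
  unfold Ph
  simp

theorem Ph_mul (hπ : Rs π) (S T : Y → Prop) : Ph π S * Ph π T = Ph π (fun y => S y ∧ T y) := by
  classical
  unfold Ph
  rw [Finset.sum_mul]
  refine Finset.sum_congr rfl fun y _ => ?_
  rw [Finset.mul_sum, Finset.sum_eq_single y]
  · by_cases h1 : S y <;> by_cases h2 : T y <;> simp [h1, h2, (hπ.isP y).2]
  · intro y' _ hy'
    by_cases h1 : S y <;> by_cases h2 : T y' <;> simp [h1, h2, hπ.orth y y' hy'.symm]
  · intro h
    exact absurd (Finset.mem_univ y) h

theorem Ph_compl (hπ : Rs π) (S : Y → Prop) : 1 - Ph π S = Ph π (fun y => ¬ S y) := by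
  classical
  rw [← Ph_true hπ]
  unfold Ph
  rw [← Finset.sum_sub_distrib]
  refine Finset.sum_congr rfl fun y _ => ?_
  by_cases h1 : S y <;> simp [h1]

theorem Ph_isP (hπ : Rs π) (S : Y → Prop) : IsP (Ph π S) := by
  classical
  constructor
  · unfold Matrix.IsHermitian Ph
    rw [conjTranspose_sum]
    refine Finset.sum_congr rfl fun y _ => ?_
    by_cases h1 : S y
    · simp only [h1, if_true]
      exact (hπ.isP y).1
    · simp [h1]
  · rw [Ph_mul hπ]
    exact Ph_congr fun y => and_self_iff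

theorem Ph_sum {L : Type} [Fintype L] (S : L → Y → Prop)
    (hd : ∀ l l' y, S l y → S l' y → l = l') : ∑ l, Ph π (S l) = Ph π (fun y => ∃ l, S l y) := by
  classical
  unfold Ph
  rw [Finset.sum_comm]
  refine Finset.sum_congr rfl fun y _ => ?_
  by_cases h : ∃ l, S l y
  · obtain ⟨l, hl⟩ := h
    rw [if_pos ⟨l, hl⟩, Finset.sum_eq_single l, if_pos hl]
    · intro l' _ hl'
      rw [if_neg]
      exact fun h => hl' (hd _ _ _ h hl)
    · intro h
      exact absurd (Finset.mem_univ l) h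
  · rw [if_neg h]
    refine Finset.sum_eq_zero fun l _ => ?_
    rw [if_neg]
    exact fun h' => h ⟨l, h'⟩

theorem rtr_Ph (S : Y → Prop) : rtr (Ph π S) = ms π S := by
  classical
  unfold rtr Ph ms
  rw [Matrix.trace_sum, Complex.re_sum]
  refine Finset.sum_congr rfl fun y _ => ?_
  by_cases h1 : S y
  · rw [if_pos h1, ix_pos h1]
    rfl
  · rw [if_neg h1, ix_neg h1]
    simp

theorem Ph_comm_of {M : Mt d} (hM : ∀ y, Commute M (π y)) (S : Y → Prop) : Commute M (Ph π S) := by
  classical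
  unfold Ph
  refine Commute.sum_right _ _ _ fun y _ => ?_
  by_cases h1 : S y
  · simp only [h1, if_true]
    exact hM y
  · simp [h1]

end Ph

/-- commuting projections have a common resolution -/
theorem resolve_aux {I : Type} [DecidableEq I] {d : ℕ} (p : I → Mt d) (hp : ∀ a, IsP (p a))
    (hc : ∀ a b, Commute (p a) (p b)) (s : Finset I) :
    ∃ (Y : Type) (_ : Fintype Y) (_ : DecidableEq Y) (π : Y → Mt d) (χ : I → Y → Prop), Rs π ∧
      (∀ a ∈ s, p a = Ph π (χ a)) ∧
      ∀ M : Mt d, (∀ a, Commute M (p a)) → ∀ y, Commute M (π y) := by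
  induction s using Finset.induction_on with
  | empty =>
    refine ⟨Unit, inferInstance, inferInstance, fun _ => 1, fun _ _ => True, ⟨fun _ => isP_one, ?_, ?_⟩,
      ?_, ?_⟩
    · intro y y' h
      exact absurd rfl h
    · simp
    · intro a ha
      simp at ha
    · intro M _ y
      exact Commute.one_right M
  | insert a s ha ih =>
    obtain ⟨Y, _, _, π, χ, hπ, h1, h2⟩ := ih
    have hca : ∀ y, Commute (p a) (π y) := h2 (p a) (hc a)
    let x : Bool → Mt d := fun b => if b then p a else 1 - p a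
    have hxc : ∀ (y : Y) (b : Bool), Commute (x b) (π y) := by
      intro y b
      cases b
      · exact (Commute.one_left _).sub_left (hca y)
      · exact hca y
    have hxP : ∀ b, IsP (x b) := by
      intro b
      cases b
      · exact isP_compl (hp a)
      · exact hp a
    have hxo : ∀ b b', b ≠ b' → x b * x b' = 0 := by
      intro b b' hb
      cases b <;> cases b'
      · exact absurd rfl hb
      · show (1 - p a) * p a = 0
        rw [sub_mul, one_mul, (hp a).2, sub_self]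
      · show p a * (1 - p a) = 0
        rw [mul_sub, mul_one, (hp a).2, sub_self]
      · exact absurd rfl hb
    have hx1 : x true + x false = 1 := by
      show p a + (1 - p a) = 1
      abel
    refine ⟨Y × Bool, inferInstance, inferInstance, fun y => π y.1 * x y.2,
      fun b y => if b = a then y.2 = true else χ b y.1, ⟨?_, ?_, ?_⟩, ?_, ?_⟩
    · rintro ⟨y, b⟩
      exact isP_mul (hπ.isP y) (hxP b) (hxc y b).symm
    · rintro ⟨y, b⟩ ⟨y', b'⟩ hne
      show π y * x b * (π y' * x b') = 0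
      have e1 : π y * x b * (π y' * x b') = (π y * π y') * (x b * x b') := by
        calc π y * x b * (π y' * x b') = π y * (x b * π y') * x b' := by noncomm_ring
          _ = π y * (π y' * x b) * x b' := by rw [(hxc y' b).eq]
          _ = _ := by noncomm_ring
      rw [e1]
      by_cases hy : y = y'
      · have hb : b ≠ b' := fun h => hne (by rw [hy, h])
        rw [hxo b b' hb, mul_zero]
      · rw [hπ.orth y y' hy, zero_mul]
    · rw [Fintype.sum_prod_type]
      simp only [Fintype.sum_bool]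
      calc ∑ y, (π y * x true + π y * x false) = ∑ y, π y * (x true + x false) :=
            Finset.sum_congr rfl fun y _ => by rw [mul_add]
        _ = 1 := by
            rw [hx1]
            simp only [mul_one]
            exact hπ.one
    · intro b hb
      classical
      unfold Ph
      rw [Fintype.sum_prod_type]
      by_cases hba : b = a
      · subst hba
        simp only [Fintype.sum_bool, if_true]
        calc p b = 1 * p b := (one_mul _).symm
          _ = ∑ y, π y * p b := by rw [← hπ.one, Finset.sum_mul]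
          _ = _ := Finset.sum_congr rfl fun y _ => by simp [x]
      · have hbs : b ∈ s := (Finset.mem_insert.1 hb).resolve_left hba
        rw [h1 b hbs]
        unfold Ph
        refine Finset.sum_congr rfl fun y _ => ?_
        simp only [Fintype.sum_bool, if_neg hba]
        by_cases h3 : χ b y
        · simp only [h3, if_true]
          rw [← mul_add, hx1, mul_one]
        · simp [h3]
    · rintro M hM ⟨y, b⟩
      have hMx : Commute M (x b) := by
        cases b
        · exact (Commute.one_right M).sub_right (hM a)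
        · exact hM a
      exact (h2 M hM y).mul_right hMx

/-! ### towers -/

/-- partial isometries with orthogonal ranges -/
structure Tow {L : Type} {d : ℕ} (V b : L → Mt d) : Prop where
  vv : ∀ l, (V l)ᴴ * V l = b l
  vo : ∀ l m, l ≠ m → (V l)ᴴ * V m = 0
  vb : ∀ l, V l * b l = V l

/-- the operator which maps the level `l` to the level `e l` by `U l` -/
def Op {L : Type} [Fintype L] {d : ℕ} (V : L → Mt d) (e : Equiv.Perm L) (U : L → UU d) : Mt d :=
  ∑ l, V (e l) * (U l).1 * (V l)ᴴ + (1 - ∑ l, V l * (V l)ᴴ)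

section Op

variable {L : Type} [Fintype L] [DecidableEq L] {d : ℕ} {V b : L → Mt d}

theorem Tow.bstar (h : Tow V b) (l : L) : (b l)ᴴ = b l := by
  rw [← h.vv, conjTranspose_mul, conjTranspose_conjTranspose]

theorem Tow.bv (h : Tow V b) (l : L) : b l * (V l)ᴴ = (V l)ᴴ := by
  have := congrArg conjTranspose (h.vb l)
  rwa [conjTranspose_mul, h.bstar] at this

theorem Tow.vc (h : Tow V b) (l : L) : (V l)ᴴ * (1 - ∑ m, V m * (V m)ᴴ) = 0 := by
  rw [mul_sub, mul_one, Finset.mul_sum, Finset.sum_eq_single l]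
  · rw [← mul_assoc, h.vv, h.bv, sub_self]
  · intro m _ hm
    rw [← mul_assoc, h.vo l m hm.symm, zero_mul]
  · intro hl
    exact absurd (Finset.mem_univ l) hl

theorem Tow.cv (h : Tow V b) (l : L) : (1 - ∑ m, V m * (V m)ᴴ) * V l = 0 := by
  have h1 := congrArg conjTranspose (h.vc l)
  rw [conjTranspose_mul, conjTranspose_sub, conjTranspose_one, conjTranspose_sum,
    conjTranspose_conjTranspose, conjTranspose_zero] at h1
  simp only [conjTranspose_mul, conjTranspose_conjTranspose] at h1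
  exact h1

theorem Tow.cc (h : Tow V b) : (1 - ∑ m, V m * (V m)ᴴ) * (1 - ∑ m, V m * (V m)ᴴ) =
    1 - ∑ m, V m * (V m)ᴴ := by
  have h1 : (1 - ∑ m, V m * (V m)ᴴ) * ∑ m, V m * (V m)ᴴ = 0 := by
    rw [Finset.mul_sum]
    refine Finset.sum_eq_zero fun l _ => ?_
    rw [← mul_assoc, h.cv, zero_mul]
  rw [mul_sub, mul_one, h1, sub_zero]

theorem Op_V (h : Tow V b) (e : Equiv.Perm L) (U : L → UU d) (l : L)
    (hU : Commute (U l).1 (b l)) : Op V e U * V l = V (e l) * b l * (U l).1 := by
  unfold Op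
  rw [add_mul, h.cv, add_zero, Finset.sum_mul, Finset.sum_eq_single l]
  · rw [mul_assoc, mul_assoc, h.vv, mul_assoc, hU.eq]
  · intro m _ hm
    rw [mul_assoc, mul_assoc, h.vo m l hm, mul_zero, mul_zero]
  · intro hl
    exact absurd (Finset.mem_univ l) hl

theorem Op_mul (h : Tow V b) (e e' : Equiv.Perm L) (U U' : L → UU d)
    (he : ∀ l, b (e' l) = b l) (hU : ∀ l, Commute (U l).1 (b l))
    (hU' : ∀ l, Commute (U' l).1 (b l)) :
    Op V e U * Op V e' U' = Op V (e * e') (fun l => U (e' l) * U' l) := by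
  have h1 : Op V e U * Op V e' U' = ∑ l, Op V e U * (V (e' l) * (U' l).1 * (V l)ᴴ) +
      Op V e U * (1 - ∑ l, V l * (V l)ᴴ) := by
    conv_lhs => rw [show Op V e' U' = ∑ l, V (e' l) * (U' l).1 * (V l)ᴴ +
      (1 - ∑ l, V l * (V l)ᴴ) from rfl]
    rw [mul_add, Finset.mul_sum]
  rw [h1]
  have h2 : Op V e U * (1 - ∑ l, V l * (V l)ᴴ) = 1 - ∑ l, V l * (V l)ᴴ := by
    unfold Op
    rw [add_mul, h.cc, Finset.sum_mul, Finset.sum_eq_zero, zero_add]
    intro l _
    rw [mul_assoc, h.vc, mul_zero]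
  rw [h2]
  show _ = ∑ l, V ((e * e') l) * (U (e' l) * U' l).1 * (V l)ᴴ + (1 - ∑ l, V l * (V l)ᴴ)
  congr 1
  refine Finset.sum_congr rfl fun l _ => ?_
  have h3 : b l * ((U' l).1 * (V l)ᴴ) = (U' l).1 * (V l)ᴴ := by
    rw [← mul_assoc, ← (hU' l).eq, mul_assoc, h.bv]
  calc Op V e U * (V (e' l) * (U' l).1 * (V l)ᴴ)
      = (Op V e U * V (e' l)) * ((U' l).1 * (V l)ᴴ) := by noncomm_ring
    _ = V (e (e' l)) * b (e' l) * (U (e' l)).1 * ((U' l).1 * (V l)ᴴ) := by
        rw [Op_V h e U (e' l) (hU (e' l))]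
    _ = V (e (e' l)) * ((U (e' l)).1 * b (e' l)) * ((U' l).1 * (V l)ᴴ) := by
        rw [(hU (e' l)).eq]
        noncomm_ring
    _ = V (e (e' l)) * (U (e' l)).1 * (b l * ((U' l).1 * (V l)ᴴ)) := by
        rw [he]
        noncomm_ring
    _ = V ((e * e') l) * (U (e' l) * U' l).1 * (V l)ᴴ := by
        rw [h3]
        show V (e (e' l)) * (U (e' l)).1 * ((U' l).1 * (V l)ᴴ) =
          V (e (e' l)) * ((U (e' l)).1 * (U' l).1) * (V l)ᴴ
        noncomm_ring

theorem Op_one : Op V 1 (fun _ => 1) = (1 : Mt d) := by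
  unfold Op
  have : ∀ l : L, V ((1 : Equiv.Perm L) l) * (1 : UU d).1 * (V l)ᴴ = V l * (V l)ᴴ := by
    intro l
    show V l * (1 : Mt d) * (V l)ᴴ = V l * (V l)ᴴ
    rw [mul_one]
  rw [Finset.sum_congr rfl fun l _ => this l]
  abel

theorem Op_star (e : Equiv.Perm L) (U : L → UU d) :
    (Op V e U)ᴴ = Op V e⁻¹ (fun l => (U (e⁻¹ l))⁻¹) := by
  unfold Op
  rw [conjTranspose_add, conjTranspose_sub, conjTranspose_one, conjTranspose_sum,
    conjTranspose_sum]
  congr 1
  · refine Fintype.sum_equiv e _ _ fun l => ?_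
    rw [conjTranspose_mul, conjTranspose_mul, conjTranspose_conjTranspose]
    have h1 : e⁻¹ (e l) = l := by simp
    show V l * ((U l).1ᴴ * (V (e l))ᴴ) = V (e⁻¹ (e l)) * ((U (e⁻¹ (e l)))⁻¹).1 * (V (e l))ᴴ
    rw [h1, mul_assoc]
    rfl
  · congr 1
    refine Finset.sum_congr rfl fun l _ => ?_
    rw [conjTranspose_mul, conjTranspose_conjTranspose]

theorem comm_inv {u : UU d} {x : Mt d} (h : Commute u.1 x) : Commute (u⁻¹).1 x := by
  have hu : u.1 * (u⁻¹).1 = 1 := congrArg Subtype.val (mul_inv_cancel u)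
  have hu' : (u⁻¹).1 * u.1 = 1 := congrArg Subtype.val (inv_mul_cancel u)
  show (u⁻¹).1 * x = x * (u⁻¹).1
  calc (u⁻¹).1 * x = (u⁻¹).1 * x * (u.1 * (u⁻¹).1) := by rw [hu, mul_one]
    _ = (u⁻¹).1 * (x * u.1) * (u⁻¹).1 := by noncomm_ring
    _ = (u⁻¹).1 * (u.1 * x) * (u⁻¹).1 := by rw [h.eq]
    _ = ((u⁻¹).1 * u.1) * x * (u⁻¹).1 := by noncomm_ring
    _ = x * (u⁻¹).1 := by rw [hu', one_mul]

theorem Op_unitary (h : Tow V b) (e : Equiv.Perm L) (U : L → UU d)
    (he : ∀ l, b (e l) = b l) (hU : ∀ l, Commute (U l).1 (b l)) :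
    Op V e U ∈ Matrix.unitaryGroup (Fin d) ℂ := by
  rw [Matrix.mem_unitaryGroup_iff']
  show (Op V e U)ᴴ * Op V e U = 1
  rw [Op_star, Op_mul h _ _ _ _ he ?_ hU]
  · have h1 : e⁻¹ * e = 1 := inv_mul_cancel e
    have h2 : (fun l => (U (e⁻¹ (e l)))⁻¹ * U l) = fun _ => 1 := by
      funext l
      have : e⁻¹ (e l) = l := by simp
      rw [this, inv_mul_cancel]
    rw [h1, h2, Op_one]
  · intro l
    have h3 : b l = b (e⁻¹ l) := by
      have := he (e⁻¹ l)
      rw [show e (e⁻¹ l) = l by simp] at this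
      exact this
    rw [h3]
    exact comm_inv (hU _)

end Op

end

end Pool.Agent.N196.AS
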